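import Pool.Agent.R869.WLang
import Pool.Agent.R869.SDir
import Pool.Agent.W602.GT.KGen
import Pool.Agent.W602.GT.KPsefS

/-!
Kobayashi hyperbolicity and the canonical classes of the closed subvarieties of wide projective
varieties.
-/

set_option autoImplicit false

open FF MvPolynomial Pool.Agent.W603.LV
open Pool.Agent.W602.GT Pool.Agent.H159R3.GGLLog
open Pool.Agent.Y190.PH (Brody)
open Pool.Agent.R869.Wd

namespace Pool.Agent.R505.KA

/-- All closed subvarieties of positive dimension `w` of `X = {F = 0}`, with function field `K`, have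
the property `P`. -/
def AllSub {n : ℕ} {ι : Type} (P : (K : Type) → [Field K] → [Algebra ℂ K] → ℕ → Prop)
    (F : ι → MvPolynomial (Fin (n + 1)) ℂ) : Prop :=
  ∀ (K : Type) [Field K] [Algebra ℂ K] (w : ℕ) (y : Fin (n + 1) → K), 1 ≤ w →
    SubVar F K w y → P K w

section

variable {k : Type} [Field k] [CharZero k] [IsAlgClosed k] {n : ℕ}

/-- a point with coordinates in an extension `L` has a canonical representative over the field
generated by the ratios of its coordinates -/
theorem repr_div {L : Type} [Field L] [Algebra k L] {ι : Type} {F : ι → MvPolynomial (Fin (n + 1)) k}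
    (hF : ∀ e, IsForm (F e)) (y : Fin (n + 1) → L) {j0 : Fin (n + 1)} (hj0 : y j0 ≠ 0)
    (hmem : ∀ e, val y (F e) = 0) :
    ∃ y' : Fin (n + 1) → coords k y, (∀ i, ((y' i : coords k y) : L) = y i / y j0) ∧
      (∀ e, val y' (F e) = 0) ∧ coords k y' = ⊤ := by
  let y' : Fin (n + 1) → coords k y := fun i =>
    ⟨y i / y j0, IntermediateField.subset_adjoin k _ ⟨i, j0, hj0, rfl⟩⟩
  have hval : ∀ G : MvPolynomial (Fin (n + 1)) k, ∀ d, G.IsHomogeneous d →
      (y j0) ^ d * ((val y' G : coords k y) : L) = val y G := by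
    intro G d hG
    have h1 := val_map (IntermediateField.val (coords k y)) G y'
    have h2 : (fun i => (IntermediateField.val (coords k y)) (y' i)) = fun i => y i / y j0 := rfl
    rw [h2] at h1
    have h3 : ((val y' G : coords k y) : L) = val (fun i => y i / y j0) G := h1
    rw [h3, ← val_smul hG]
    congr 1
    funext i
    field_simp
  refine ⟨y', fun i => rfl, ?_, ?_⟩
  · intro e
    obtain ⟨d, hd⟩ := hF e
    have h1 := hval (F e) d hd
    rw [hmem e] at h1
    have h2 := (mul_eq_zero.1 h1).resolve_left (pow_ne_zero _ hj0)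
    exact Subtype.ext h2
  · apply IntermediateField.lift_injective (coords k y)
    rw [IntermediateField.lift_top]
    unfold coords
    rw [IntermediateField.lift_adjoin]
    congr 1
    ext z
    constructor
    · rintro ⟨_, ⟨i, j, hj, rfl⟩, rfl⟩
      have hj' : y j ≠ 0 := by
        intro h0
        apply hj
        apply Subtype.ext
        change y j / y j0 = 0
        rw [h0, zero_div]
      refine ⟨i, j, hj', ?_⟩
      change (y i / y j0) / (y j / y j0) = y i / y j
      field_simp
    · rintro ⟨i, j, hj, rfl⟩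
      refine ⟨y' i / y' j, ⟨i, j, ?_, rfl⟩, ?_⟩
      · intro h0
        have h1 := congrArg Subtype.val h0
        change y j / y j0 = 0 at h1
        exact (div_ne_zero hj hj0) h1
      · change (y i / y j0) / (y j / y j0) = y i / y j
        field_simp

/-- nonconstant rational curves give ruled subvarieties -/
theorem ruled_sub {ι : Type} {F : ι → MvPolynomial (Fin (n + 1)) k}
    (hF : ∀ e, IsForm (F e)) (y : Fin (n + 1) → RatFunc k) {j0 : Fin (n + 1)} (hj0 : y j0 ≠ 0)
    (hmem : ∀ e, val y (F e) = 0) (hnc : coords k y ≠ ⊥) :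
    ∃ y' : Fin (n + 1) → coords k y, SubVar F (coords k y) 1 y' ∧ Ruled k (coords k y) ∧
      ∀ j, y' j ≠ 0 ↔ y j ≠ 0 := by
  obtain ⟨y'', hs, -, -⟩ := rational_sub hF y hj0 hmem hnc
  obtain ⟨y', h1, h2, h3⟩ := repr_div hF y hj0 hmem
  have hzero : ∀ j, y' j = 0 ↔ y j = 0 := by
    intro j
    constructor
    · intro h0
      have h4 := h1 j
      rw [h0] at h4
      have h5 : y j / y j0 = 0 := h4.symm
      rcases div_eq_zero_iff.1 h5 with h6 | h6
      · exact h6
      · exact absurd h6 hj0
    · intro h0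
      apply Subtype.ext
      rw [h1 j, h0, zero_div]
      rfl
  refine ⟨y', ⟨?_, h2, h3, hs.dim⟩, ?_, fun j => not_congr (hzero j)⟩
  · intro h0
    exact hj0 ((hzero j0).1 (congrFun h0 j0))
  set x := RatFunc.Luroth.generator (coords k y) with hx
  have hxE : x ∈ coords k y := RatFunc.Luroth.generator_mem
  have htr : Transcendental k x := RatFunc.Luroth.transcendental_generator hnc
  have hgen : coords k y = IntermediateField.adjoin k {x} := RatFunc.Luroth.eq_adjoin_generator
  set x' : coords k y := ⟨x, hxE⟩ with hx'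
  have htop : IntermediateField.adjoin k {x'} = ⊤ := by
    apply IntermediateField.lift_injective (coords k y)
    rw [IntermediateField.lift_top, IntermediateField.lift_adjoin]
    conv_rhs => rw [hgen]
    congr 1
    simp [hx']
  have htr' : Transcendental k x' := by
    intro h
    apply htr
    exact h.algebraMap (A := RatFunc k)
  refine ⟨⊥, x', ?_, ?_⟩
  · intro h
    apply htr'
    have hint : Algebra.IsAlgebraic k (⊥ : IntermediateField k (coords k y)) :=
      Algebra.IsAlgebraic.of_finite k _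
    exact h.restrictScalars k
  · apply IntermediateField.restrictScalars_injective k
    rw [IntermediateField.restrictScalars_top, ← top_le_iff, ← htop]
    rw [IntermediateField.adjoin_le_iff]
    intro z hz
    rw [Set.mem_singleton_iff] at hz
    rw [hz, SetLike.mem_coe, IntermediateField.mem_restrictScalars]
    exact IntermediateField.subset_adjoin _ _ (Set.mem_singleton x')

/-- nonconstant morphisms from the multiplicative group give ruled subvarieties -/
theorem ruled_of_gm {ι : Type} {F : ι → MvPolynomial (Fin (n + 1)) k} (hF : ∀ e, IsForm (F e))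
    {P : Fin (n + 1) → Polynomial k} (hP : GmCurve F P) :
    ∃ (K : Type) (_ : Field K) (_ : Algebra k K) (y : Fin (n + 1) → K),
      SubVar F K 1 y ∧ Ruled k K := by
  have hinf : Infinite k := inferInstance
  let y : Fin (n + 1) → RatFunc k := fun i => algebraMap (Polynomial k) (RatFunc k) (P i)
  have hinj : Function.Injective (algebraMap (Polynomial k) (RatFunc k)) :=
    RatFunc.algebraMap_injective k
  obtain ⟨j0, hj0⟩ : ∃ j0, P j0 ≠ 0 := by
    by_contra hcon
    push Not at hcon
    apply hP.ne 1 one_ne_zero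
    funext i
    rw [hcon i]
    simp
  have hj0' : y j0 ≠ 0 := by
    intro h0
    exact hj0 (hinj (by rw [map_zero]; exact h0))
  have hmem : ∀ e, val y (F e) = 0 := by
    intro e
    obtain ⟨R, hR1, hR2⟩ := val_poly P (F e)
    have h0 : R = 0 := poly_zero fun t ht => by rw [hR1]; exact hP.mem t ht e
    rw [← hR2, h0, map_zero]
  have hnc : coords k y ≠ ⊥ := by
    intro hbot
    obtain ⟨t1, t2, ht1, ht2, hli⟩ := hP.nonconst
    have hc : ∀ i, ∃ c : k, P i = Polynomial.C c * P j0 := by
      intro i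
      have h1 : y i / y j0 ∈ coords k y :=
        IntermediateField.subset_adjoin k _ ⟨i, j0, hj0', rfl⟩
      rw [hbot, IntermediateField.mem_bot] at h1
      obtain ⟨c, hc⟩ := h1
      refine ⟨c, hinj ?_⟩
      rw [map_mul]
      have h2 : algebraMap (Polynomial k) (RatFunc k) (Polynomial.C c) =
          algebraMap k (RatFunc k) c := by
        rw [IsScalarTower.algebraMap_apply k (Polynomial k) (RatFunc k)]
        rfl
      rw [h2, hc]
      change y i = y i / y j0 * y j0
      field_simp
    choose c hc using hc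
    rw [LinearIndependent.pair_iff] at hli
    have h3 := hli ((P j0).eval t2) (-(P j0).eval t1) (by
      funext i
      simp only [Pi.add_apply, Pi.smul_apply, smul_eq_mul, Pi.zero_apply]
      rw [hc i]
      simp
      ring)
    apply hP.ne t2 ht2
    funext i
    rw [hc i]
    simp [h3.1]
  obtain ⟨y', hs, hr, -⟩ := ruled_sub hF y hj0' hmem hnc
  exact ⟨_, _, _, y', hs, hr⟩

end

variable {n : ℕ} {ι : Type} {F : ι → MvPolynomial (Fin (n + 1)) ℂ}

/-- nonconstant orbits of diagonal one-parameter groups give ruled subvarieties -/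
theorem ruled_of_orbit {ι : Type} {F : ι → MvPolynomial (Fin (n + 1)) ℂ}
    (hF : ∀ e, IsForm (F e)) {J : Finset (Fin (n + 1))} {x : Fin (n + 1) → ℂ}
    {b : Fin (n + 1) → ℤ} (hx : ∀ j, x j ≠ 0 ↔ j ∈ J) (hb : ∃ j ∈ J, ∃ j' ∈ J, b j ≠ b j')
    (hO : OrbitIn F b x) :
    ∃ (K : Type) (_ : Field K) (_ : Algebra ℂ K) (y : Fin (n + 1) → K),
      SubVar F K 1 y ∧ Ruled ℂ K ∧ ∀ j, y j ≠ 0 ↔ j ∈ J := by
  classical
  obtain ⟨m, hm⟩ : ∃ m : ℤ, ∀ i, m ≤ b i := by
    refine ⟨-∑ i, |b i|, fun i => ?_⟩
    have h1 := Finset.single_le_sum (f := fun i => |b i|) (fun i _ => abs_nonneg (b i))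
      (Finset.mem_univ i)
    have h1' : |b i| ≤ ∑ i, |b i| := h1
    have h2 := neg_abs_le (b i)
    linarith
  set c : Fin (n + 1) → ℕ := fun i => (b i - m).toNat with hc
  have hcb : ∀ i, ((c i : ℕ) : ℤ) = b i - m := fun i => Int.toNat_of_nonneg (by linarith [hm i])
  set P : Fin (n + 1) → Polynomial ℂ := fun i => Polynomial.C (x i) * Polynomial.X ^ c i with hP
  let y : Fin (n + 1) → RatFunc ℂ := fun i => algebraMap (Polynomial ℂ) (RatFunc ℂ) (P i)
  have hinj : Function.Injective (algebraMap (Polynomial ℂ) (RatFunc ℂ)) :=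
    RatFunc.algebraMap_injective ℂ
  have hP0 : ∀ i, P i ≠ 0 ↔ x i ≠ 0 := by
    intro i
    rw [hP]
    simp
  have hy0 : ∀ i, y i ≠ 0 ↔ x i ≠ 0 := by
    intro i
    rw [← hP0 i]
    exact not_congr ⟨fun h => hinj (by rw [map_zero]; exact h), fun h => by
      change algebraMap (Polynomial ℂ) (RatFunc ℂ) (P i) = 0
      rw [h, map_zero]⟩
  obtain ⟨j, hj, j', hj', hjj⟩ := hb
  have hj0 : y j ≠ 0 := (hy0 j).2 ((hx j).2 hj)
  have hj0' : y j' ≠ 0 := (hy0 j').2 ((hx j').2 hj')
  have hmem : ∀ e, val y (F e) = 0 := by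
    intro e
    obtain ⟨R, hR1, hR2⟩ := val_poly P (F e)
    obtain ⟨D, hD⟩ := hF e
    have h0 : R = 0 := poly_zero fun t ht => by
      rw [hR1]
      have h1 : (fun i => (P i).eval t) = fun i => t ^ (-m) * (t ^ b i * x i) := by
        funext i
        rw [hP]
        simp only [Polynomial.eval_mul, Polynomial.eval_C, Polynomial.eval_pow, Polynomial.eval_X]
        rw [← mul_assoc, ← zpow_add₀ ht, ← zpow_natCast, hcb i, mul_comm]
        congr 2
        ring
      rw [h1, val_smul hD, val_eval, hO t ht e, mul_zero]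
    rw [← hR2, h0, map_zero]
  have hnc : coords ℂ y ≠ ⊥ := by
    intro hbot
    have h1 : y j / y j' ∈ coords ℂ y :=
      IntermediateField.subset_adjoin ℂ _ ⟨j, j', hj0', rfl⟩
    rw [hbot, IntermediateField.mem_bot] at h1
    obtain ⟨z, hz⟩ := h1
    have h2 : P j = Polynomial.C z * P j' := by
      apply hinj
      have h3 : algebraMap (Polynomial ℂ) (RatFunc ℂ) (Polynomial.C z) =
          algebraMap ℂ (RatFunc ℂ) z := by
        rw [IsScalarTower.algebraMap_apply ℂ (Polynomial ℂ) (RatFunc ℂ)]
        rfl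
      have e : algebraMap (Polynomial ℂ) (RatFunc ℂ) (Polynomial.C z * P j') =
          algebraMap (Polynomial ℂ) (RatFunc ℂ) (Polynomial.C z) * y j' := map_mul _ _ _
      rw [e, h3, hz]
      change y j = y j / y j' * y j'
      field_simp
    have hz0 : z ≠ 0 := by
      rintro rfl
      rw [Polynomial.C_0, zero_mul] at h2
      exact (hP0 j).2 ((hx j).2 hj) h2
    have h3 : (P j).natDegree = c j := by
      rw [hP]
      exact Polynomial.natDegree_C_mul_X_pow _ _ ((hx j).2 hj)
    have h4 : (P j').natDegree = c j' := by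
      rw [hP]
      exact Polynomial.natDegree_C_mul_X_pow _ _ ((hx j').2 hj')
    rw [h2, Polynomial.natDegree_C_mul hz0, h4] at h3
    apply hjj
    have h5 := hcb j
    have h6 := hcb j'
    rw [← h3] at h5
    linarith
  obtain ⟨y', hs, hr, hz⟩ := ruled_sub hF y hj0 hmem hnc
  exact ⟨_, _, _, y', hs, hr, fun i => (hz i).trans ((hy0 i).trans (hx i))⟩

/-- The chain of the properties of all closed subvarieties. -/
theorem sub_chain :
    (AllGeneralType F → AllSub (fun K _ _ w => KodGe ℂ K w (fun _ => False) 0) F) ∧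
    (AllSub (fun K _ _ w => KodGe ℂ K w (fun _ => False) 0) F →
      AllSub (fun K _ _ w => Psef ℂ K w (fun _ => False)) F) ∧
    (AllSub (fun K _ _ w => Psef ℂ K w (fun _ => False)) F →
      AllSub (fun K _ _ _ => ¬ Ruled ℂ K) F) := by
  refine ⟨fun h K _ _ w y hw hy => kod_of_general (h K w y hw hy),
    fun h K _ _ w y hw hy => psef_of_kodGe (h K w y hw hy), fun h K _ _ w y hw hy => ?_⟩
  rintro ⟨C, σ, h1, h2⟩
  exact not_psef_of hy.dim C h1 h2 (h K w y hw hy)

/-- Hyperbolicity of all the projective varieties near `X = {F = 0}`, given by forms which differ by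
at most `ε` from the forms `F e` on the unit ball. -/
def HyperbolicNear {n : ℕ} {ι : Type} (F : ι → MvPolynomial (Fin (n + 1)) ℂ) : Prop :=
  ∃ ε : ℝ, 0 < ε ∧ ∀ F' : ι → MvPolynomial (Fin (n + 1)) ℂ, (∀ e, IsForm (F' e)) →
    (∀ e u, ‖u‖ ≤ 1 → ‖eval u (F' e) - eval u (F e)‖ ≤ ε) → Brody F'

theorem near_iff (hF : ∀ e, IsForm (F e)) : Brody F ↔ HyperbolicNear F := by
  refine ⟨Pool.Agent.Y190.OP.open_brody hF, ?_⟩
  rintro ⟨ε, hε, h⟩
  refine h F hF fun e u _ => ?_
  rw [sub_self, norm_zero]
  exact hε.le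

/-- Hyperbolicity of the wide projective varieties and the canonical classes of their subvarieties. -/
theorem main {s N A : ℕ} (hC : Sys ∅ F s N) (hA : HgtBound ∅ F A) :
    [Brody F, AllSub (fun K _ _ w => GeneralType ℂ K w) F,
      AllSub (fun K _ _ w => KodGe ℂ K w (fun _ => False) 0) F,
      AllSub (fun K _ _ w => Psef ℂ K w (fun _ => False)) F,
      AllSub (fun K _ _ _ => ¬ Ruled ℂ K) F, NoRationalCurves F, HyperbolicNear F].TFAE := by
  have h := lang_tfae hC hA
  have h17 : Brody F ↔ ∀ P, ¬ GmCurve F P := h.out 0 6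
  obtain ⟨c1, c2, c3⟩ := sub_chain (F := F)
  tfae_have 1 ↔ 2 := h.out 0 1
  tfae_have 1 ↔ 6 := h.out 0 5
  tfae_have 2 → 3 := c1
  tfae_have 3 → 4 := c2
  tfae_have 4 → 5 := c3
  tfae_have 5 → 1 := by
    intro h5
    rw [h17]
    intro P hP
    obtain ⟨K, i1, i2, y, hy, hr⟩ := ruled_of_gm (fun e => hC.form e) hP
    exact h5 K 1 y le_rfl hy hr
  tfae_have 1 ↔ 7 := near_iff hC.form
  tfae_finish

end Pool.Agent.R505.KA
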